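import Pool.Agent.H15.G.R_seed8.TH603.Sur.Main

/-! Exchange of independence and simple points, and the passage to the expected dimension. -/

namespace Pool.Agent.TH641.UM

open Finset Pool.Agent.TH176.Nag Pool.Agent.TH603.Sur Pool.Agent.H932R3

/-- independence and enough simple points give emptiness -/
theorem Emp_ones_of_Sur {ι : Type} [Fintype ι] {w : ι → ℕ} {S : Finset (ℤ × ℤ)} {p : ℕ}
    (h : Sur w (↑S : Set (ℤ × ℤ))) (hp : S.card ≤ cond w + p) :
    Emp (Sum.elim w (fun _ : Fin p => 1)) (↑S : Set (ℤ × ℤ)) := by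
  classical
  obtain ⟨T, hT, hcard, hE⟩ := h
  have hTS : T ⊆ S := by exact_mod_cast hT
  have h1 := Emp_union hE (S \ T)
  rw [union_sdiff_of_subset hTS] at h1
  have h2 : (S \ T).card ≤ p := by
    rw [card_sdiff_of_subset hTS, hcard]
    omega
  refine Emp_emb (Sum.map id (Fin.castLE h2)) ?_ ?_ h1
  · exact Sum.map_injective.2 ⟨Function.injective_id, Fin.castLE_injective h2⟩
  · rintro (i | i) <;> simp

/-- the exponents of degree at most `d` as a finite set -/
noncomputable def TF (d : ℕ) : Finset (ℤ × ℤ) := (TZ_finite d).toFinset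

theorem coe_TF (d : ℕ) : (↑(TF d) : Set (ℤ × ℤ)) = TZ d := by
  unfold TF
  exact Set.Finite.coe_toFinset _

theorem card_TF (d : ℕ) : (TF d).card = (d + 2).choose 2 := by
  classical
  have e : TF d = (Finset.range (d + 1)).biUnion fun a =>
      (Finset.range (d + 1 - a)).image fun b => (((a : ℕ) : ℤ), ((b : ℕ) : ℤ)) := by
    ext ⟨x, y⟩
    rw [← Finset.mem_coe, coe_TF]
    simp only [TZ, Set.mem_ofPred_eq, mem_biUnion, Finset.mem_range, Finset.mem_image, Prod.mk.injEq]
    constructor
    · rintro ⟨h1, h2, h3⟩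
      exact ⟨x.toNat, by omega, y.toNat, by omega, by omega, by omega⟩
    · rintro ⟨a, ha, b, hb, rfl, rfl⟩
      omega
  rw [e, card_biUnion]
  · have h1 : ∀ a ∈ Finset.range (d + 1), ((Finset.range (d + 1 - a)).image fun b : ℕ =>
        (((a : ℕ) : ℤ), ((b : ℕ) : ℤ))).card = d + 1 - a := by
      intro a _
      rw [card_image_of_injective, Finset.card_range]
      intro b b' h
      simpa using h
    rw [Finset.sum_congr rfl h1, sum_range_sub (d + 1) (d + 1) le_rfl]
  · intro a _ a' _ hne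
    rw [Function.onFun, disjoint_left]
    rintro ⟨x, y⟩ h1 h2
    rw [Finset.mem_image] at h1 h2
    obtain ⟨b, _, h3⟩ := h1
    obtain ⟨b', _, h4⟩ := h2
    rw [Prod.mk.injEq] at h3 h4
    apply hne
    have : ((a : ℕ) : ℤ) = a' := h3.1.trans h4.1.symm
    exact_mod_cast this

/-- independence in degree `d` and enough simple points -/
theorem Emp_ones {ι : Type} [Fintype ι] {w : ι → ℕ} {d p : ℕ}
    (h : Sur w (TZ d)) (hp : (d + 2).choose 2 ≤ cond w + p) :
    Emp (Sum.elim w (fun _ : Fin p => 1)) (TZ d) := by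
  rw [← coe_TF] at h ⊢
  exact Emp_ones_of_Sur h (by rw [card_TF]; exact hp)

/-- and conversely -/
theorem Sur_of_ones {ι : Type} [Fintype ι] {w : ι → ℕ} {d p : ℕ}
    (h : Emp (Sum.elim w (fun _ : Fin p => 1)) (TZ d)) (hp : cond w + p ≤ (d + 2).choose 2) :
    Sur w (TZ d) := by
  rw [← coe_TF] at h ⊢
  exact Sur_of_Emp p (by rw [card_TF]; exact hp) h

/-- **the expected dimension in all degrees** from emptiness and independence in the degrees with the
corresponding sign -/
theorem expDim_of_sign {n : ℕ} {w : Fin n → ℕ} (hE : ∀ d, (d + 2).choose 2 ≤ cond w → Emp w (TZ d))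
    (hS : ∀ d, cond w ≤ (d + 2).choose 2 → Sur w (TZ d)) :
    ∃ F : MvPolynomial (Fin n × Fin 2) ℚ, F ≠ 0 ∧ ∀ {L : Type} [Field L] [CharZero L]
      (P : Fin n → Fin 2 → L), MvPolynomial.aeval (fun ij : Fin n × Fin 2 => P ij.1 ij.2) F ≠ 0 →
      ∀ d, ExpDim L w P d := by
  obtain ⟨F, hF, hF'⟩ := expDim_two (w := w) (A := fun d => (d + 2).choose 2 ≤ cond w)
    (B := fun d => cond w ≤ (d + 2).choose 2) (cond w) (fun d hd => by
      have h1 : (d + 2).choose 2 = (d + 1) * (d + 2) / 2 := by
        rw [Nat.choose_two_right]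
        congr 1
        rw [mul_comm]
        rfl
      have h2 : d ≤ (d + 1) * (d + 2) / 2 := by
        rw [Nat.le_div_iff_mul_le (by norm_num)]
        nlinarith
      omega) hE hS
  exact ⟨F, hF, fun P hP d => hF' P hP d (le_total _ _)⟩

end Pool.Agent.TH641.UM
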