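import Pool.Agent.H15.G.R_seed8.TH885.NW.Final
import Pool.Agent.H15.G.R_seed8.TH641.UM.Ones
import Pool.Agent.H15.G.R_seed8.H932R3.NearFinal

/-! Uniform multiplicities: from the critical degree to all degrees, for all large `n`. -/

namespace Pool.Agent.TH641.UM

open Finset Pool.Agent.TH176.Nag Pool.Agent.TH603.Sur Pool.Agent.H932R3

/-- the statement for the critical degrees -/
def Crit (ε : ℝ) (n m : ℕ) : Prop := ∀ d : ℕ, |2 * (d : ℝ) + 3 - √(n : ℝ) * (2 * m + 1)| < ε →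
  ((d + 2).choose 2 ≤ n * (m + 1).choose 2 → Emp (fun _ : Fin n => m) (TZ d)) ∧
  (n * (m + 1).choose 2 ≤ (d + 2).choose 2 → Sur (fun _ : Fin n => m) (TZ d))

/-- **from the critical degree to all degrees** -/
theorem expDim_of_crit {ε : ℝ} (hε : 0 < ε)
    (hC : ∃ N1 : ℕ, ∀ n : ℕ, N1 ≤ n → ∀ m : ℕ, (n : ℝ) - 6 * √(n : ℝ) + 10 ≤ m → Crit ε n m) :
    ∃ N0 : ℕ, ∀ n : ℕ, N0 ≤ n → ∀ m : ℕ, 1 ≤ m → ∀ {L : Type} [Field L] [CharZero L],
      ∃ F : MvPolynomial (Fin n × Fin 2) ℚ, F ≠ 0 ∧ ∀ (P : Fin n → Fin 2 → L),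
        MvPolynomial.aeval (fun ij : Fin n × Fin 2 => P ij.1 ij.2) F ≠ 0 →
        ∀ d : ℕ, ExpDim L (fun _ => m) P d := by
  obtain ⟨N1, hN1⟩ := hC
  obtain ⟨N2, hN2⟩ := Pool.Agent.TH885.NW.all_uni hε
  refine ⟨max (max N1 N2) 10, fun n hn m hm L _ _ => ?_⟩
  have hn1 : N1 ≤ n := ((le_max_left _ _).trans (le_max_left _ _)).trans hn
  have hn2 : N2 ≤ n := ((le_max_right _ _).trans (le_max_left _ _)).trans hn
  have hn10 : 10 ≤ n := (le_max_right _ _).trans hn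
  rcases le_or_gt (((m + 1 : ℕ) : ℝ)) ((n : ℝ) - 6 * √(n : ℝ) + 11) with hsm | hlg
  · obtain ⟨F, hF, hF'⟩ := near_points (L := L) (n := n) (m := m) hn10 hm (w := fun _ => m)
      (fun _ => Or.inl rfl) (near_cond (by omega) (fun _ => Or.inl rfl) (Or.inl hsm))
    exact ⟨F, hF, fun P hP d => hF' P hP d⟩
  · have hmR : (n : ℝ) - 6 * √(n : ℝ) + 10 ≤ m := by push_cast at hlg; linarith
    have hcr := hN1 n hn1 m hmR
    obtain ⟨F1, hF1, h1⟩ := hN2 n hn2 m hm (L := L)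
    have hcond : cond (fun _ : Fin n => m) = n * (m + 1).choose 2 := by simp [Pool.Agent.TH603.Sur.cond]
    have hb : ∀ d : ℕ, |2 * (d : ℝ) + 3 - √(n : ℝ) * (2 * m + 1)| < ε →
        d ≤ ⌈√(n : ℝ) * (2 * m + 1) + ε⌉₊ := by
      intro d hd
      have h3 := (abs_lt.1 hd).2
      have h4 := Nat.le_ceil (√(n : ℝ) * (2 * m + 1) + ε)
      have h5 : (d : ℝ) ≤ (⌈√(n : ℝ) * (2 * m + 1) + ε⌉₊ : ℝ) := by
        have : (0 : ℝ) ≤ d := Nat.cast_nonneg d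
        linarith
      exact_mod_cast h5
    obtain ⟨F2, hF2, h2⟩ := expDim_two (w := fun _ : Fin n => m)
      (A := fun d => |2 * (d : ℝ) + 3 - √(n : ℝ) * (2 * m + 1)| < ε ∧
        (d + 2).choose 2 ≤ n * (m + 1).choose 2)
      (B := fun d => |2 * (d : ℝ) + 3 - √(n : ℝ) * (2 * m + 1)| < ε ∧
        n * (m + 1).choose 2 ≤ (d + 2).choose 2)
      ⌈√(n : ℝ) * (2 * m + 1) + ε⌉₊ (fun d hd => hb d hd.1) (fun d hd => (hcr d hd.1).1 hd.2)
      (fun d hd => (hcr d hd.1).2 hd.2)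
    refine ⟨F1 * F2, mul_ne_zero hF1 hF2, fun P hP d => ?_⟩
    rw [map_mul] at hP
    rcases le_or_gt ε |2 * (d : ℝ) + 3 - √(n : ℝ) * (2 * m + 1)| with h | h
    · exact h1 P (left_ne_zero_of_mul hP) d h
    · refine h2 P (right_ne_zero_of_mul hP) d ?_
      rcases le_total ((d + 2).choose 2) (n * (m + 1).choose 2) with h3 | h3
      · exact Or.inl ⟨h, h3⟩
      · exact Or.inr ⟨h, h3⟩

end Pool.Agent.TH641.UM
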