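import Pool.Agent.H15.G.R_seed8.TH641.NW.Win2
import Pool.Agent.H15.G.R_seed8.TH641.NW.Inst

/-! The systems of `k ^ 2` points of equal multiplicities in the two degrees next to `k (m + 1 / 2) - 3 / 2`. -/

namespace Pool.Agent.TH641.UM

open Finset Pool.Agent.TH176.Nag Pool.Agent.TH603.Sur Pool.Agent.TH603.Cut Pool.Agent.TH641.NW

/-- emptiness with a free step `σ` of the spreading -/
theorem Emp_core_gen (key : KeyE) {ι : Type} [Fintype ι] {w : ι → ℕ} {n : ℕ} (hn : 10 ≤ n)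
    (hcard : Fintype.card ι = n) {d J σ : ℕ} (hσ : σ + 1 ≤ n)
    (h1 : √(n : ℝ) * (d + 3 / 2) + √(n : ℝ) / 3 + 9 / 8 + ((n : ℝ) - σ - 1) <
      ((∑ i, w i : ℕ) : ℝ) + n / 2)
    (hJ1 : √(n : ℝ) * J ≤ d) (hJ2 : (d : ℝ) < √(n : ℝ) * (J + 1))
    (htop : (3 * d - 3 * √(n : ℝ) * J) ^ 2 / 18 + 11 / 18 * (3 * d - 3 * √(n : ℝ) * J) + 17 / 8 +
      (σ : ℝ) * J ≤ ((∑ i, w i : ℕ) : ℝ)) : Emp w (TZ d) := by
  classical
  have hnR : (10 : ℝ) ≤ n := by exact_mod_cast hn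
  have hσR : (σ : ℝ) + 1 ≤ n := by exact_mod_cast hσ
  have hs : √(n : ℝ) * √(n : ℝ) = n := Real.mul_self_sqrt (by linarith)
  have hs3 : 3 ≤ √(n : ℝ) := Real.le_sqrt_of_sq_le (by linarith)
  have eK : (3 * √(n : ℝ)) ^ 2 = 9 * n := by rw [mul_pow, sq (√(n : ℝ)), hs]; ring
  have hK0 : 0 ≤ 3 * √(n : ℝ) := by linarith
  refine Emp_pl key (K := 3 * √(n : ℝ)) hK0 (n' := (n : ℝ)) (Z' := ((∑ i, w i : ℕ) : ℝ))
    (σ := σ) (J := J) (ρ := fun j => if j < J then ((∑ i, w i : ℕ) : ℝ) - (n - σ) - n * j else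
    if j = J then (3 * d - 3 * √(n : ℝ) * J) ^ 2 / 18 + 11 / 18 * (3 * d - 3 * √(n : ℝ) * J) + 17 / 8
      else 0) hσR ?_ ?_ ?_ ?_ ?_
  · intro x j B hB
    split_ifs with h2 h3
    · have h3 : (j : ℝ) + 1 ≤ J := by exact_mod_cast h2
      have h4 := mul_le_mul_of_nonneg_left h3 hK0
      have h5 := up_row2 (x := x) (by linarith) (by linarith) hB
      rw [ell_row, eK] at h5
      have h6 : (B.card : ℝ) < (((∑ i, w i : ℕ) : ℤ) - (n - σ) + 1 - n * j : ℤ) := by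
        push_cast
        push_cast at h1
        linarith
      have h7 : (B.card : ℤ) < ((∑ i, w i : ℕ) : ℤ) - (n - σ) + 1 - n * j := by exact_mod_cast h6
      have h8 : (B.card : ℤ) ≤ ((∑ i, w i : ℕ) : ℤ) - (n - σ) - n * j := by omega
      exact_mod_cast h8
    · subst h3
      exact up_top (by linarith) (by linarith) (by linarith) hB
    · have h3 : (J : ℝ) + 1 ≤ j := by exact_mod_cast (by omega : J + 1 ≤ j)
      have h4 := mul_le_mul_of_nonneg_left h3 hK0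
      have h5 : B = ∅ := by
        rw [Finset.eq_empty_iff_forall_notMem]
        exact fun c hc => U_empty (by linarith) (hB c hc)
      rw [h5]; simp
  · intro j hj
    simp only [if_pos hj]
    linarith
  · simp only [lt_irrefl, if_false, if_true]
    exact htop
  · intro j hj
    simp only [if_neg (not_lt.2 hj.le), if_neg (show ¬ j = J by omega)]
    norm_num
  · rw [← hcard]
    exact Emp_Cl w

theorem sqrt_sq_nat (k : ℕ) : √(((k ^ 2 : ℕ) : ℝ)) = k := by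
  rw [Nat.cast_pow]
  exact Real.sqrt_sq (Nat.cast_nonneg k)

/-- independence -/
theorem Sur_P {k k' m : ℕ} (hk : 4 ≤ k) (hk' : k = 2 * k') :
    Sur (fun _ : Fin (k ^ 2) => m) (TZ (k * m + k' - 1)) := by
  have hkR : (4 : ℝ) ≤ k := by exact_mod_cast hk
  have hk'R : (k : ℝ) = 2 * k' := by exact_mod_cast hk'
  have hd : ((k * m + k' - 1 : ℕ) : ℝ) = k * m + k / 2 - 1 := by
    rw [Nat.cast_sub (by omega)]
    push_cast
    linarith
  refine Sur_win2 (b := m) keyS (by nlinarith) (Fintype.card_fin (k ^ 2)) (fun _ => Nat.le_succ _) ?_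
  rw [sqrt_sq_nat, hd]
  have hsum : ((∑ _i : Fin (k ^ 2), max m m : ℕ) : ℝ) = k ^ 2 * m := by simp
  rw [hsum]
  push_cast
  nlinarith

/-- emptiness -/
theorem Emp_P {k k' m : ℕ} (hk : 14 ≤ k) (hk' : k = 2 * k') (hm : 3 * k ≤ 2 * m) :
    Emp (fun _ : Fin (k ^ 2) => m) (TZ (k * m + k' - 2)) := by
  have hkR : (14 : ℝ) ≤ k := by exact_mod_cast hk
  have hk'R : (k : ℝ) = 2 * k' := by exact_mod_cast hk'
  have hmR : 3 * (k : ℝ) ≤ 2 * m := by exact_mod_cast hm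
  have hd : ((k * m + k' - 2 : ℕ) : ℝ) = k * m + k / 2 - 2 := by
    rw [Nat.cast_sub (by omega)]
    push_cast
    linarith
  -- the slack of a row
  obtain ⟨s0, hs0⟩ : ∃ s0 : ℕ, s0 = ⌈(k : ℝ) / 12⌉₊ := ⟨_, rfl⟩
  have h1 : (k : ℝ) / 12 ≤ s0 := by rw [hs0]; exact Nat.le_ceil _
  have h2 : (s0 : ℝ) < k / 12 + 1 := by rw [hs0]; exact Nat.ceil_lt_add_one (by positivity)
  have h3 : 1 ≤ s0 := by
    have : (0 : ℝ) < s0 := by linarith
    have : 0 < s0 := by exact_mod_cast this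
    omega
  have h4 : s0 + 1 ≤ k ^ 2 := by
    have h5 : (s0 : ℝ) + 1 ≤ ((k ^ 2 : ℕ) : ℝ) := by push_cast; nlinarith
    exact_mod_cast h5
  have hσ : ((k ^ 2 - s0 : ℕ) : ℝ) = k ^ 2 - s0 := by
    rw [Nat.cast_sub (by omega)]
    push_cast
    ring
  have hsum : ((∑ _i : Fin (k ^ 2), m : ℕ) : ℝ) = k ^ 2 * m := by simp
  refine Emp_core_gen keyE (by nlinarith) (Fintype.card_fin (k ^ 2)) (J := m) (σ := k ^ 2 - s0)
    (by omega) ?_ ?_ ?_ ?_
  · rw [sqrt_sq_nat, hd, hσ, hsum]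
    push_cast
    nlinarith
  · rw [sqrt_sq_nat, hd]
    linarith
  · rw [sqrt_sq_nat, hd]
    linarith
  · rw [sqrt_sq_nat, hd, hσ, hsum]
    have e : (3 : ℝ) * (k * m + k / 2 - 2) - 3 * k * m = 3 / 2 * k - 6 := by ring
    rw [e]
    have h5 : (k : ℝ) / 12 * m ≤ s0 * m := mul_le_mul_of_nonneg_right h1 (Nat.cast_nonneg m)
    have h6 : (k : ℝ) / 12 * (3 / 2 * k) ≤ k / 12 * m :=
      mul_le_mul_of_nonneg_left (by linarith) (by positivity)
    nlinarith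

end Pool.Agent.TH641.UM
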